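import Pool.Agent.CX.Def
import Pool.Agent.CW.HierA

set_option autoImplicit false

/-!
Examples of nice actions.
-/

namespace Pool.Agent.CX

open Pool.Agent.HC (AmenableAction)
open Pool.Agent.CW (HierA)

/-- all actions of groups of the class `HierA` -/
theorem Nice.of_hierA {o : Prop} {A X : Type} [Group A] [MulAction A X] (h : HierA A) :
    Nice o A X :=
  Nice.hier o A A X (MonoidHom.id A) (fun a ha x => by
    rw [show a = 1 from ha, one_smul]) h

/-- trivial actions -/
theorem Nice.of_trivial {o : Prop} {A X : Type} [Group A] [MulAction A X]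
    (h : ∀ (a : A) (x : X), a • x = x) : Nice o A X :=
  Nice.hier o A Unit X 1 (fun a _ x => h a x) (HierA.triv Unit)

/-- a homomorphism to an amenable group such that the kernel acts freely: over the complex numbers
this contains all pairs `(A, C)` such that `C` embeds in an amenable quotient of `A` -/
theorem Nice.of_amenable_quotient {A Q X : Type} [Group A] [Group Q] [MulAction A X]
    (π : A →* Q) (hQ : AmenableAction Q Q)
    (h : ∀ a : A, π a = 1 → ∀ x : X, a • x = x → a = 1) : Nice True A X := by
  classical
  letI : MulAction A Q := MulAction.compHom Q π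
  refine Nice.amen True A Q X ?_ fun y => ?_
  · intro F ε hε
    obtain ⟨E, hE, h2⟩ := hQ (F.image π) ε hε
    exact ⟨E, hE, fun g hg => h2 (π g) (Finset.mem_image_of_mem _ hg)⟩
  · refine Nice.free True trivial _ X fun a x hx => ?_
    have h1 : π a.1 * y = y := a.2
    exact Subtype.ext (h a.1 (mul_eq_right.1 h1) x hx)

/-- a homomorphism to a group which acts freely on a tree (a free group) such that the kernel acts
freely -/
theorem Nice.of_free_quotient {A Q V X : Type} [Group A] [Group Q] [MulAction A X] [MulAction Q V]
    (π : A →* Q) (T : SimpleGraph V) (hT : T.IsTree)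
    (hadj : ∀ (g : Q) (u v : V), T.Adj u v → T.Adj (g • u) (g • v))
    (hinv : ∀ (g : Q) (u v : V), T.Adj u v → ¬ (g • u = v ∧ g • v = u))
    (hfree : ∀ (g : Q) (v : V), g • v = v → g = 1)
    (h : ∀ a : A, π a = 1 → ∀ x : X, a • x = x → a = 1) : Nice True A X := by
  letI : MulAction A V := MulAction.compHom V π
  refine Nice.tree True A V X T hT (fun g => hadj (π g)) (fun g => hinv (π g)) (fun v => ?_)
    (fun u v _ => ?_) fun v => ?_
  · refine Nice.free True trivial _ X fun a x hx => ?_
    exact Subtype.ext (h a.1 (hfree _ v a.2) x hx)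
  · refine Nice.free True trivial _ X fun a x hx => ?_
    exact Subtype.ext (h a.1 (hfree _ u a.2.1) x hx)
  · letI := nbAct T (fun g : A => hadj (π g)) v
    refine Nice.of_trivial fun a w => ?_
    have h1 : π a.1 = 1 := hfree _ v a.2
    apply Subtype.ext
    show π a.1 • w.1 = w.1
    rw [h1, one_smul]

end Pool.Agent.CX
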