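import Pool.Agent.CW.NiceDef

set_option autoImplicit false

namespace Pool.Agent.CX

open Pool.Agent.HC (AmenableAction)
open Pool.Agent.CW (HierA)

/-- the stabiliser of a vertex of a graph acts on the set of the neighbours of the vertex -/
def nbAct {A V : Type} [Group A] [MulAction A V] (T : SimpleGraph V)
    (hadj : ∀ (g : A) (u v : V), T.Adj u v → T.Adj (g • u) (g • v)) (v : V) :
    MulAction (MulAction.stabilizer A v) {w : V // T.Adj v w} where
  smul g w := ⟨(g : A) • w.1, by
    have h := hadj g v w.1 w.2
    rwa [show (g : A) • v = v from g.2] at h⟩
  one_smul w := Subtype.ext (one_smul A w.1)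
  mul_smul g h w := Subtype.ext (mul_smul (g : A) (h : A) w.1)

/-- the stabiliser of a point acts on the fibre over the point -/
def fbAct {A X Y : Type} [Group A] [MulAction A X] [MulAction A Y] (f : X → Y)
    (hf : ∀ (a : A) (x : X), f (a • x) = a • f x) (y : Y) :
    MulAction (MulAction.stabilizer A y) {x : X // f x = y} where
  smul g x := ⟨(g : A) • x.1, by rw [hf, x.2]; exact g.2⟩
  one_smul x := Subtype.ext (one_smul A x.1)
  mul_smul g h x := Subtype.ext (mul_smul (g : A) (h : A) x.1)

/-- Nice actions of groups `A` on sets `X` (with a parameter `o`): the smallest class which contains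
the action of `A` on `X`
* if `o` holds and the action is free,
* if the kernel of a homomorphism from `A` to a group of the class `HierA` acts trivially on `X`
  (for example, if `A` acts trivially on `X`, or if `A` is in the class `HierA`),
* if `A` acts amenably on a set and the restrictions to the point stabilisers are nice,
* if `A` acts without inversions on a tree, the restrictions to the stabilisers of vertices and
  edges are nice, and the actions of the stabilisers of the vertices on the sets of the neighbours
  are nice with the parameter `False`,
* if `X → Y` is equivariant, the action on `Y` is nice, and the actions of the stabilisers of the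
  points of `Y` on the fibres are nice. -/
inductive Nice : Prop → (A : Type) → [Group A] → (X : Type) → [MulAction A X] → Prop
  | free (o : Prop) (ho : o) (A X : Type) [Group A] [MulAction A X]
      (h : ∀ (a : A) (x : X), a • x = x → a = 1) : Nice o A X
  | hier (o : Prop) (A Q X : Type) [Group A] [Group Q] [MulAction A X] (π : A →* Q)
      (hX : ∀ a : A, π a = 1 → ∀ x : X, a • x = x) (hQ : HierA Q) : Nice o A X
  | amen (o : Prop) (A Y X : Type) [Group A] [MulAction A Y] [MulAction A X]
      (hY : AmenableAction A Y) (h : ∀ y : Y, Nice o (MulAction.stabilizer A y) X) : Nice o A X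
  | tree (o : Prop) (A V X : Type) [Group A] [MulAction A V] [MulAction A X] (T : SimpleGraph V)
      (hT : T.IsTree) (hadj : ∀ (g : A) (u v : V), T.Adj u v → T.Adj (g • u) (g • v))
      (hinv : ∀ (g : A) (u v : V), T.Adj u v → ¬ (g • u = v ∧ g • v = u))
      (h1 : ∀ v : V, Nice o (MulAction.stabilizer A v) X)
      (h2 : ∀ u v : V, T.Adj u v →
        Nice o ↥(MulAction.stabilizer A u ⊓ MulAction.stabilizer A v) X)
      (h3 : ∀ v : V, @Nice False (MulAction.stabilizer A v) _ {w : V // T.Adj v w}
        (nbAct T hadj v)) : Nice o A X
  | trans (o : Prop) (A Y X : Type) [Group A] [MulAction A Y] [MulAction A X] (f : X → Y)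
      (hf : ∀ (a : A) (x : X), f (a • x) = a • f x) (h1 : Nice o A Y)
      (h2 : ∀ y : Y, @Nice o (MulAction.stabilizer A y) _ {x : X // f x = y} (fbAct f hf y)) :
      Nice o A X

end Pool.Agent.CX
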