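import Pool.Agent.CX.Key
import Pool.Agent.CW.Final

set_option autoImplicit false
set_option linter.unusedSectionVars false

noncomputable section

open scoped InnerProductSpace ENNReal Topology
open Classical Filter ContinuousLinearMap

/-!
The combination theorem, third version.
-/

namespace Pool.Agent.CX

open Pool.Agent.VN Pool.Agent.LFT Pool.Agent.HI Pool.Agent.HC Pool.Agent.EH Pool.Agent.CW

variable {k : Subring ℂ}

/-- groups over `HierA` groups -/
theorem sk_hier {A Q X : Type} [Group A] [Group Q] [MulAction A X] (π : A →* Q)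
    (hX : ∀ a : A, π a = 1 → ∀ x : X, a • x = x) (hQ : HierA Q) : SK k A X := by
  intro Γ _ ρ hΓ
  exact pw_of_hierA (k := k) hQ Γ (π.comp ρ) hΓ (Via ρ X) fun a ha x => hX (ρ a) ha x

/-- the stabiliser of a point in a group over `A` -/
lemma sk_stab {A X Y : Type} [Group A] [MulAction A X] [MulAction A Y] {y : Y}
    (h : SK k (MulAction.stabilizer A y) X) {Γ : Type} [Group Γ] (π : Γ →* A)
    (hΓ : AtiyahOver k Γ) : KeyG k (MulAction.stabilizer Γ (toVia π y)) (Via π X) := by
  have h1 := h (MulAction.stabilizer Γ (toVia π y))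
    (MonoidHom.mk' (fun g => ⟨π g.1, g.2⟩) fun a b => Subtype.ext (map_mul π a.1 b.1))
    (AtiyahOver.of_injective hΓ (MulAction.stabilizer Γ (toVia π y)).subtype
      Subtype.val_injective)
  exact keyG_congr (fun x => x) (fun _ _ => rfl) (fun _ _ h => h) (fun x => ⟨x, rfl⟩) h1

theorem amSet_via {A Y Γ : Type} [Group A] [MulAction A Y] [Group Γ] (π : Γ →* A)
    (h : AmSet A Y) : AmSet Γ (Via π Y) := by
  intro F ε hε
  obtain ⟨E, hE, h2⟩ := h (F.image π) ε hε
  exact ⟨E, hE, fun g hg => h2 (π g) (Finset.mem_image_of_mem _ hg)⟩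

theorem key_of_nice {o : Prop} {A X : Type} [inst : Group A] [act : MulAction A X]
    (h : Nice o A X) : (o → k = ⊤) → (AtiyahOver k A → KeyG k A X) ∧ (¬ o → SK k A X) := by
  induction h with
  | free o ho A X h =>
    intro hk
    have := hk ho
    subst this
    exact ⟨fun _ => keyG_free h, fun h2 => absurd ho h2⟩
  | hier o A Q X π hX hQ =>
    intro _
    exact ⟨fun hA => pw_of_hierA (k := k) hQ A π hA X hX, fun _ => sk_hier π hX hQ⟩
  | amen o A Y X hY _ ih =>
    intro hk
    refine ⟨fun hA => ?_, fun ho => ?_⟩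
    · refine keyG_amset hA (amSet_of_amenable hY) fun y => ?_
      exact (ih y hk).1 (AtiyahOver.of_injective hA (MulAction.stabilizer A y).subtype
        Subtype.val_injective)
    · intro Γ _ π hΓ
      refine keyG_amset hΓ (amSet_via π (amSet_of_amenable hY)) fun y => ?_
      exact sk_stab ((ih (ofVia y) hk).2 ho) π hΓ
  | tree o A V X T hT hadj hinv _ _ _ ih1 ih2 ih3 =>
    intro hk
    refine ⟨fun hA => ?_, fun ho => ?_⟩
    · refine keyG_tree hA T hT hadj hinv (fun v => ?_) (fun u v huv => ?_) fun v => ?_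
      · exact (ih1 v hk).1 (AtiyahOver.of_injective hA (MulAction.stabilizer A v).subtype
          Subtype.val_injective)
      · exact (ih2 u v huv hk).1 (AtiyahOver.of_injective hA
          (MulAction.stabilizer A u ⊓ MulAction.stabilizer A v).subtype Subtype.val_injective)
      · exact (ih3 v False.elim).2 id
    · intro Γ _ π hΓ
      refine keyG_tree (V := Via π V) hΓ T hT (fun g => hadj (π g)) (fun g => hinv (π g))
        (fun v => ?_) (fun u v huv => ?_) fun v => ?_
      · exact sk_stab ((ih1 (ofVia v) hk).2 ho) π hΓ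
      · have h1 := (ih2 (ofVia u) (ofVia v) huv hk).2 ho
          ↥(MulAction.stabilizer Γ u ⊓ MulAction.stabilizer Γ v)
          (MonoidHom.mk' (fun g => ⟨π g.1, g.2⟩) fun a b => Subtype.ext (map_mul π a.1 b.1))
          (AtiyahOver.of_injective hΓ
            (MulAction.stabilizer Γ u ⊓ MulAction.stabilizer Γ v).subtype Subtype.val_injective)
        exact keyG_congr (fun x => x) (fun _ _ => rfl) (fun _ _ h => h) (fun x => ⟨x, rfl⟩) h1
      · intro Γ' _ π' hΓ'
        let i3 := nbAct T hadj (ofVia v)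
        let i4 := nbAct (A := Γ) (V := Via π V) T (fun g => hadj (π g)) v
        have h1 := (ih3 (ofVia v) False.elim).2 id Γ'
          ((MonoidHom.mk' (fun g : MulAction.stabilizer Γ v =>
            (⟨π g.1, g.2⟩ : MulAction.stabilizer A (ofVia v)))
            fun a b => Subtype.ext (map_mul π a.1 b.1)).comp π') hΓ'
        exact keyG_congr (fun x => x) (fun _ _ => rfl) (fun _ _ h => h) (fun x => ⟨x, rfl⟩) h1
  | trans o A Y X f hf _ _ ih1 ih2 =>
    intro hk
    refine ⟨fun hA => ?_, fun ho => ?_⟩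
    · refine keyG_trans f hf ((ih1 hk).1 hA) fun y => ?_
      exact (ih2 y hk).1 (AtiyahOver.of_injective hA (MulAction.stabilizer A y).subtype
        Subtype.val_injective)
    · intro Γ _ π hΓ
      refine keyG_trans (X := Via π X) (Y := Via π Y) f (fun g x => hf (π g) x)
        ((ih1 hk).2 ho Γ π hΓ) fun y => ?_
      let i3 := fbAct f hf (ofVia y)
      let i4 := fbAct (A := Γ) (X := Via π X) (Y := Via π Y) f (fun g x => hf (π g) x) y
      have h1 := (ih2 (ofVia y) hk).2 ho (MulAction.stabilizer Γ y)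
        (MonoidHom.mk' (fun g => ⟨π g.1, g.2⟩) fun a b => Subtype.ext (map_mul π a.1 b.1))
        (AtiyahOver.of_injective hΓ (MulAction.stabilizer Γ y).subtype Subtype.val_injective)
      exact keyG_congr (fun x => x) (fun _ _ => rfl) (fun _ _ h => h) (fun x => ⟨x, rfl⟩) h1

/-- graphs of groups with key estimates for the sets of neighbours -/
theorem atiyah_of_links (k : Subring ℂ) {G V : Type} [Group G] [MulAction G V] (T : SimpleGraph V)
    (hT : T.IsTree) (hadj : ∀ (g : G) (u v : V), T.Adj u v → T.Adj (g • u) (g • v))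
    (hinv : ∀ (g : G) (u v : V), T.Adj u v → ¬ (g • u = v ∧ g • v = u))
    (hA : ∀ v : V, AtiyahOver k (MulAction.stabilizer G v))
    (hK : ∀ v : V, @KeyG k (MulAction.stabilizer G v) {w : V // T.Adj v w} _
      (nbAct T hadj v)) : AtiyahOver k G := by
  have hne : Nonempty V := hT.connected.nonempty
  obtain ⟨v0⟩ := hne
  by_cases hd : Nonempty T.Dart
  swap
  · -- no edges: a single vertex
    have hs : ∀ v : V, v = v0 := by
      intro v
      by_contra hne
      obtain ⟨w⟩ := hT.connected.preconnected v v0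
      cases w with
      | nil => exact hne rfl
      | cons h _ => exact hd ⟨⟨(_, _), h⟩⟩
    refine AtiyahOver.of_injective (hA v0) (MonoidHom.mk' (fun g : G =>
      (⟨g, hs _⟩ : MulAction.stabilizer G v0)) fun a b => rfl) ?_
    intro a b hab
    exact congrArg (fun x : MulAction.stabilizer G v0 => x.1) hab
  obtain ⟨δ0⟩ := hd
  let i1 : MulAction G T.Dart := dartAct T hadj
  let i2 : MulAction G {e : Sym2 V // e ∈ T.edgeSet} := edgeAct T hadj
  obtain ⟨o, ho⟩ := exists_orient T hadj hinv
  set α0 : T.Dart → V := fun e => e.fst with hα0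
  set α1 : T.Dart → {e : Sym2 V // e ∈ T.edgeSet} := fun e => ⟨e.edge, e.edge_mem⟩ with hα1
  have h0 : Eqv G α0 := fun g δ => rfl
  have h1 : Eqv G α1 := fun g δ => rfl
  have hedge : ∀ (g : G) (δ : T.Dart), g • α1 δ = α1 δ → g • δ = δ := by
    intro g δ hg
    rw [← h1] at hg
    have h2 : (g • δ).edge = δ.edge := congrArg Subtype.val hg
    rw [SimpleGraph.dart_edge_eq_iff] at h2
    rcases h2 with h2 | h2
    · exact h2
    · exfalso
      apply hinv g δ.fst δ.snd δ.adj
      exact ⟨congrArg (fun e : T.Dart => e.fst) h2, congrArg (fun e : T.Dart => e.snd) h2⟩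
  have hhalf := tree_half T hT
  have hconn := tree_conn T hT
  have hkey0 : KeyS k G α0 := by
    refine keyS_of_stab α0 h0 fun v => ?_
    let i3 := nbAct T hadj v
    let i4 : MulAction (MulAction.stabilizer G v) {δ : T.Dart // δ.fst = v} := fibAct _ h0 v
    refine keyG_congr (X := {w : V // T.Adj v w})
      (fun w => (⟨⟨(v, w.1), w.2⟩, rfl⟩ : {δ : T.Dart // δ.fst = v})) ?_ ?_ ?_ (hK v)
    · intro s w
      apply Subtype.ext
      apply SimpleGraph.Dart.ext
      refine Prod.ext ?_ rfl
      exact (s.2).symm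
    · intro a b hab
      apply Subtype.ext
      exact congrArg (fun x : {δ : T.Dart // δ.fst = v} => x.1.snd) hab
    · rintro ⟨δ, hδ⟩
      subst hδ
      exact ⟨⟨δ.snd, δ.adj⟩, rfl⟩
  have hAF : AF k G α0 α1 := by
    refine af_of_keys h0 h1 hhalf hkey0 ?_
    intro ι _ d P hP hl u Y hY ε hε
    exact key_of_stab (a := α1) h1 hedge d hP hl u hY hε
  have hIA : Int0 k G V := fun ι _ lab X hX => Rat.int hA hX
  have hIB : Int0 k G {e : Sym2 V // e ∈ T.edgeSet} := by
    refine Int0.of_map (M' := V) o ho hIA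
  have hInt : Int0 k G Unit := by
    refine int_of_af (β := fun _ : T.Dart => ()) h0 h1 (fun _ _ => rfl)
      (fun _ => ⟨δ0, rfl⟩) (fun δ δ' _ => hconn δ δ') hAF hIA hIB
  exact atiyah_of_int0 hInt

/-- the combination theorem -/
theorem combination (k : Subring ℂ) (G V : Type) [Group G] [MulAction G V] (T : SimpleGraph V)
    (hT : T.IsTree) (hadj : ∀ (g : G) (u v : V), T.Adj u v → T.Adj (g • u) (g • v))
    (hinv : ∀ (g : G) (u v : V), T.Adj u v → ¬ (g • u = v ∧ g • v = u))
    (hA : ∀ v : V, AtiyahOver k (MulAction.stabilizer G v))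
    (hN : ∀ v : V, @Nice (k = ⊤) (MulAction.stabilizer G v) _ {w : V // T.Adj v w}
      (nbAct T hadj v)) : AtiyahOver k G := by
  refine atiyah_of_links k T hT hadj hinv hA fun v => ?_
  let i3 := nbAct T hadj v
  exact (key_of_nice (hN v) id).1 (hA v)

end Pool.Agent.CX
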