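import Pool.Agent.CW.AmSet
import Pool.Agent.CW.Local
import Pool.Agent.CX.Def

set_option autoImplicit false
set_option linter.unusedSectionVars false

noncomputable section

open scoped InnerProductSpace ENNReal Topology
open Classical Filter ContinuousLinearMap

/-!
Key estimates for sets: trees, free actions, transitivity.
-/

namespace Pool.Agent.CX

open Pool.Agent.VN Pool.Agent.LFT Pool.Agent.HI Pool.Agent.HC Pool.Agent.EH Pool.Agent.CW

variable {k : Subring ℂ}

/-- the key estimates hold for all groups with a homomorphism to `A` which satisfy the Atiyah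
conjecture over `k` -/
def SK (k : Subring ℂ) (A X : Type) [Group A] [MulAction A X] : Prop :=
  ∀ (Γ : Type) [Group Γ] (π : Γ →* A), AtiyahOver k Γ → KeyG k Γ (Via π X)

/-- two actions with the same values -/
lemma keyG_congr {G X X' : Type} [Group G] [MulAction G X] [MulAction G X'] (j : X → X')
    (hj : ∀ (s : G) x, j (s • x) = s • j x) (hji : Function.Injective j)
    (hjs : Function.Surjective j) (h : KeyG k G X) : KeyG k G X' :=
  keyG_of_iso (MonoidHom.id G) Function.injective_id Function.surjective_id j hj hji hjs h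

section Forest

variable {A D V E X : Type} [Group A] [MulAction A D] [MulAction A V] [MulAction A E]
  [MulAction A X]

/-- actions on trees, given by darts, vertices and edges -/
theorem keyG_forest (hA : AtiyahOver k A) {α0 : D → V} {α1 : D → E} (h0 : Eqv A α0)
    (h1 : Eqv A α1) (hedge : ∀ (g : A) (δ : D), g • α1 δ = α1 δ → g • δ = δ) (hhalf : Half α0 α1)
    (hconn : ∀ δ δ', Conn α0 α1 δ δ') (δ0 : D) (hV : ∀ v : V, KeyG k (MulAction.stabilizer A v) X)
    (hE : ∀ e : E, KeyG k (MulAction.stabilizer A e) X)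
    (hL : ∀ v : V, @SK k (MulAction.stabilizer A v) {δ : D // α0 δ = v} _ (fibAct α0 h0 v)) :
    KeyG k A X := by
  rcases isEmpty_or_nonempty X with he | ⟨⟨x0⟩⟩
  · intro ι _ ξ P hP hl u Y hY ε hε
    have hι : IsEmpty ι := ⟨fun i => he.false (ξ i)⟩
    refine ⟨⊥, Rat.bot ξ, ?_⟩
    rw [dm_isEmpty, dm_isEmpty, dm_isEmpty, dm_isEmpty]
    linarith
  -- the group with letters
  set L := Lett X with hLdef
  set Γ := Sd L A with hΓ
  set π1 : Γ →* A := rh L A with hπ1
  -- the formula over the vertices and over the edges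
  have hf0 := af_set (k := k) (A := A) (X := X) (Y := V) hV
  have hf1 := af_set (k := k) (A := A) (X := X) (Y := E) hE
  -- integrality over the vertices
  have hIV : Int0 k Γ (Via π1 V) := by
    refine int_of_af (β := fun x : TD L A × Via π1 V => x.2) ?_ ?_ ?_ ?_ ?_ hf0 (int_ta hA)
      (int_tb hA)
    · rintro g ⟨δ, c⟩
      rfl
    · rintro g ⟨δ, c⟩
      exact Prod.ext (tb_smul _ _ g δ) rfl
    · rintro g ⟨δ, c⟩
      rfl
    · intro w
      exact ⟨(((1 : FreeGroup L), ((x0, 0) : L), true), w), rfl⟩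
    · rintro ⟨δ, u⟩ ⟨δ', u'⟩ hu
      have hu' : u = u' := hu
      subst hu'
      exact conn_prod (t_conn L A δ δ') u
  -- the formula for the tree
  have hkeyT : KeyS (D := Via π1 D) (V := Via π1 V) k Γ α0 := by
    refine keyS_of_stab (D := Via π1 D) (V := Via π1 V) α0 (fun g δ => h0 (π1 g) δ) fun v => ?_
    let i3 := fibAct (G := Γ) (D := Via π1 D) (V := Via π1 V) α0 (fun g δ => h0 (π1 g) δ) v
    let i4 := fibAct (G := A) (D := D) (V := V) α0 h0 v
    have hsk := hL v (MulAction.stabilizer Γ v)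
      (MonoidHom.mk' (fun g => ⟨π1 g.1, g.2⟩) fun a b => Subtype.ext (by simp))
      (atiyah_stab hIV v)
    refine keyG_congr (fun x => x) ?_ (fun _ _ h => h) (fun x => ⟨x, rfl⟩) hsk
    intro s x
    rfl
  have hAFT : AF (D := Via π1 D) (A := Via π1 V) (B := Via π1 E) k Γ α0 α1 := by
    refine af_of_keys (D := Via π1 D) (A := Via π1 V) (B := Via π1 E) (fun g δ => h0 (π1 g) δ)
      (fun g δ => h1 (π1 g) δ) hhalf hkeyT ?_
    intro ι _ d P hP hl u Y hY ε hε
    exact key_of_stab (D := Via π1 D) (A := Via π1 E)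
      (a := α1) (fun g δ => h1 (π1 g) δ) (fun g δ hg => hedge (π1 g) δ hg) d hP hl u hY hε
  -- the product of the trees
  refine key_of_af hA ?_
  have hprod := product (G := Γ) (D := Via π1 D) (A := Via π1 V)
      (B := Via π1 E) (W := Via (rh L A) Unit)
      (a := α0) (b := α1) (β := fun _ => toVia _ ()) (βA := fun _ => toVia _ ())
      (βB := fun _ => toVia _ ()) (fun g δ => h0 (π1 g) δ) (fun g δ => h1 (π1 g) δ)
      (fun g δ => rfl)
      (fun g δ => rfl) (fun g δ => rfl) (fun δ => rfl) (fun δ => rfl)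
      (fun w => ⟨toVia _ δ0, rfl⟩) (fun δ δ' _ => hconn δ δ')
      (ta_smul L A) (tb_smul L A) (fun f => ⟨((f : FreeGroup L), ((x0, 0) : L), true), rfl⟩)
      (fun f => ⟨((f.1 : FreeGroup L), f.2, true), rfl⟩) (t_conn L A) hAFT hf0 hf1
  exact hprod

end Forest

section Tree

variable {A V X : Type} [Group A] [MulAction A V] [MulAction A X]

/-- actions on trees -/
theorem keyG_tree (hA : AtiyahOver k A) (T : SimpleGraph V) (hT : T.IsTree)
    (hadj : ∀ (g : A) (u v : V), T.Adj u v → T.Adj (g • u) (g • v))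
    (hinv : ∀ (g : A) (u v : V), T.Adj u v → ¬ (g • u = v ∧ g • v = u))
    (hV : ∀ v : V, KeyG k (MulAction.stabilizer A v) X)
    (hE : ∀ u v : V, T.Adj u v →
      KeyG k ↥(MulAction.stabilizer A u ⊓ MulAction.stabilizer A v) X)
    (hL : ∀ v : V, @SK k (MulAction.stabilizer A v) {w : V // T.Adj v w} _ (nbAct T hadj v)) :
    KeyG k A X := by
  have hne : Nonempty V := hT.connected.nonempty
  obtain ⟨v0⟩ := hne
  by_cases hd : Nonempty T.Dart
  swap
  · -- no edges: a single vertex
    have hs : ∀ v : V, v = v0 := by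
      intro v
      by_contra hne
      obtain ⟨w⟩ := hT.connected.preconnected v v0
      cases w with
      | nil => exact hne rfl
      | cons h _ => exact hd ⟨⟨(_, _), h⟩⟩
    refine keyG_of_iso (MulAction.stabilizer A v0).subtype Subtype.val_injective
      (fun g => ⟨⟨g, hs _⟩, rfl⟩) (fun x => x) (fun _ _ => rfl) (fun _ _ h => h)
      (fun x => ⟨x, rfl⟩) (hV v0)
  obtain ⟨δ0⟩ := hd
  let i1 : MulAction A T.Dart := dartAct T hadj
  let i2 : MulAction A {e : Sym2 V // e ∈ T.edgeSet} := edgeAct T hadj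
  have h0 : Eqv A (fun e : T.Dart => e.fst) := fun g δ => rfl
  have h1 : Eqv A (fun e : T.Dart => (⟨e.edge, e.edge_mem⟩ : {e : Sym2 V // e ∈ T.edgeSet})) :=
    fun g δ => rfl
  have hedge : ∀ (g : A) (δ : T.Dart),
      g • (⟨δ.edge, δ.edge_mem⟩ : {e : Sym2 V // e ∈ T.edgeSet}) = ⟨δ.edge, δ.edge_mem⟩ →
      g • δ = δ := by
    intro g δ hg
    have h2 : (g • δ).edge = δ.edge := congrArg Subtype.val hg
    rw [SimpleGraph.dart_edge_eq_iff] at h2
    rcases h2 with h2 | h2
    · exact h2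
    · exfalso
      apply hinv g δ.fst δ.snd δ.adj
      exact ⟨congrArg (fun e : T.Dart => e.fst) h2, congrArg (fun e : T.Dart => e.snd) h2⟩
  refine keyG_forest (α0 := fun e : T.Dart => e.fst)
    (α1 := fun e : T.Dart => (⟨e.edge, e.edge_mem⟩ : {e : Sym2 V // e ∈ T.edgeSet}))
    hA h0 h1 hedge (tree_half T hT) (tree_conn T hT) δ0 hV ?_ ?_
  · rintro ⟨e, he⟩
    obtain ⟨u, v⟩ := e
    have huv : T.Adj u v := he
    have hst : ∀ g : A, g • (⟨s(u, v), he⟩ : {e : Sym2 V // e ∈ T.edgeSet}) = ⟨s(u, v), he⟩ ↔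
        g ∈ MulAction.stabilizer A u ⊓ MulAction.stabilizer A v := by
      intro g
      constructor
      · intro hg
        have h2 := hedge g ⟨(u, v), huv⟩ hg
        exact ⟨congrArg (fun e : T.Dart => e.fst) h2, congrArg (fun e : T.Dart => e.snd) h2⟩
      · rintro ⟨hu, hv⟩
        have h2 : g • (⟨(u, v), huv⟩ : T.Dart) = ⟨(u, v), huv⟩ := by
          apply SimpleGraph.Dart.ext
          exact Prod.ext hu hv
        have h3 := congrArg (fun e : T.Dart =>
          (⟨e.edge, e.edge_mem⟩ : {e : Sym2 V // e ∈ T.edgeSet})) h2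
        exact h3
    refine keyG_of_iso (G := MulAction.stabilizer A
      (⟨s(u, v), he⟩ : {e : Sym2 V // e ∈ T.edgeSet}))
      (MonoidHom.mk' (fun g : ↥(MulAction.stabilizer A u ⊓ MulAction.stabilizer A v) =>
        ⟨g.1, (hst g.1).2 g.2⟩) fun a b => rfl) ?_ ?_ (fun x => x) (fun _ _ => rfl)
      (fun _ _ h => h) (fun x => ⟨x, rfl⟩) (hE u v huv)
    · intro a b hab
      exact Subtype.ext (congrArg (fun x : MulAction.stabilizer A
        (⟨s(u, v), he⟩ : {e : Sym2 V // e ∈ T.edgeSet}) => x.1) hab)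
    · rintro ⟨g, hg⟩
      exact ⟨⟨g, (hst g).1 hg⟩, rfl⟩
  · intro v Γ _ π hΓ
    let i3 := nbAct T hadj v
    let i4 : MulAction (MulAction.stabilizer A v) {δ : T.Dart // δ.fst = v} := fibAct _ h0 v
    refine keyG_congr (X := Via π {w : V // T.Adj v w})
      (fun w => (⟨⟨(v, (ofVia w).1), (ofVia w).2⟩, rfl⟩ : {δ : T.Dart // δ.fst = v}))
      ?_ ?_ ?_ (hL v Γ π hΓ)
    · intro s w
      apply Subtype.ext
      apply SimpleGraph.Dart.ext
      refine Prod.ext ?_ rfl
      exact ((π s).2).symm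
    · intro a b hab
      apply Subtype.ext
      exact congrArg (fun x : {δ : T.Dart // δ.fst = v} => x.1.snd) hab
    · rintro ⟨δ, hδ⟩
      subst hδ
      exact ⟨toVia π ⟨δ.snd, δ.adj⟩, rfl⟩

end Tree

section Other

variable {A X Y : Type} [Group A] [MulAction A X] [MulAction A Y]

/-- free actions over the complex numbers -/
theorem keyG_free (h : ∀ (a : A) (x : X), a • x = x → a = 1) : KeyG (⊤ : Subring ℂ) A X := by
  refine keyG_of_orbits fun x => ?_
  have h1 : MulAction.stabilizer A x = ⊥ := by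
    rw [eq_bot_iff]
    intro a ha
    exact h a x ha
  rw [h1]
  exact key_one

/-- transitivity -/
theorem keyG_trans (f : X → Y) (hf : ∀ (a : A) (x : X), f (a • x) = a • f x) (h1 : KeyG k A Y)
    (h2 : ∀ y : Y, @KeyG k (MulAction.stabilizer A y) {x : X // f x = y} _ (fbAct f hf y)) :
    KeyG k A X := by
  intro ι _ ξ P hP hl u Z hZ ε hε
  have hl1 := loc_map f hf hP hl
  obtain ⟨S1, hS1, hS1e⟩ := h1 ι inferInstance _ P hP hl1 u Z hZ (ε / 2) (half_pos hε)
  obtain ⟨S, hS, hSe⟩ := keyS_of_stab (k := k) f hf (fun y => h2 y) ι inferInstance ξ P hP hl u S1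
    hS1 (ε / 2) (half_pos hε)
  exact ⟨S, hS, by linarith⟩

end Other

end Pool.Agent.CX
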